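import Pool.Agent.K4H87.RPO.Final

/-! The existential theory of the recursive path ordering is undecidable for partial
precedences: two incomparable symbols suffice. -/

set_option autoImplicit false

namespace Pool.Agent.Results.MP_18cdfa_lc.PartialPrecedenceUndecidable

open Pool.Agent.K4H87.RPO

theorem result (q : ℕ) (ar : Fin q → ℕ) (prec : Fin q → Fin q → Prop) (st : Fin q → Bool)
    (irr : ∀ h, ¬ prec h h) (tr : ∀ a b c, prec a b → prec b c → prec a c)
    (κ f g : Fin q)
    (hκ : ar κ = 0) (hmin : ∀ c, prec κ c → ar c ≠ 0)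
    (hf : ar f = 1 ∨ (2 ≤ ar f ∧ st f = false)) (hg : ar g = 1 ∨ (2 ≤ ar g ∧ st g = false))
    (hne : f ≠ g) (hfg : ¬ prec f g) (hgf : ¬ prec g f)
    (hbelow : ∀ h, prec f h ∨ prec g h → h = κ ∨ ar h = 1) :
    Function.Injective (QF.code (ar := ar)) ∧
    (∃! gt : Tm ar → Tm ar → Prop, IsRPO ar prec st gt) ∧
    ∀ gt : Tm ar → Tm ar → Prop, IsRPO ar prec st gt → ¬ DecidableEx gt := by
  refine ⟨code_injective, rpo_existsUnique prec st, fun gt hgt => ?_⟩
  obtain ⟨F, H⟩ := exists_hyp (st := st) irr tr hκ hmin _ f g le_rfl hf hg hne hfg hgf hbelow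
  exact H.undec hgt

end Pool.Agent.Results.MP_18cdfa_lc.PartialPrecedenceUndecidable
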